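import Mathlib

set_option autoImplicit false

namespace Pool.Agent.Results.MP_f2857b_co.SmallOrders

open Finset

/-- The red degree of `v`, when the red edges of `K_n` form the graph `R` (and the blue edges
form its complement). -/
noncomputable def redDegree {n : ℕ} (R : SimpleGraph (Fin n)) (v : Fin n) : ℕ :=
  (R.neighborSet v).ncard

/-- `X` is the vertex set of a red copy of `G` or of a blue copy of `H`. -/
def Admissible {a b n : ℕ} (G : SimpleGraph (Fin a)) (H : SimpleGraph (Fin b))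
    (R : SimpleGraph (Fin n)) (X : Finset (Fin n)) : Prop :=
  (∃ f : Fin a ↪ Fin n, (∀ u v, G.Adj u v → R.Adj (f u) (f v)) ∧ X = univ.map f) ∨
  (∃ f : Fin b ↪ Fin n, (∀ u v, H.Adj u v → Rᶜ.Adj (f u) (f v)) ∧ X = univ.map f)

/-- The degree spread of `X`: the largest difference of the red degrees of two vertices of `X`. -/
noncomputable def spread {n : ℕ} (R : SimpleGraph (Fin n)) (X : Finset (Fin n)) : ℕ :=
  (X ×ˢ X).sup (fun p => redDegree R p.1 - redDegree R p.2)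

/-- Every red/blue colouring of `K_N` has a red copy of `G` or a blue copy of `H`. -/
def Arrows {a b : ℕ} (G : SimpleGraph (Fin a)) (H : SimpleGraph (Fin b)) (N : ℕ) : Prop :=
  ∀ R : SimpleGraph (Fin N), ∃ X, Admissible G H R X

/-- `r` is the Ramsey number `r(G,H)`. -/
def IsRamseyNumber {a b : ℕ} (G : SimpleGraph (Fin a)) (H : SimpleGraph (Fin b)) (r : ℕ) : Prop :=
  IsLeast {N | Arrows G H N} r

/-- `s` is the degree spread of the colouring with red graph `R`: the least degree spread of an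
admissible set. -/
def IsColouringSpread {a b n : ℕ} (G : SimpleGraph (Fin a)) (H : SimpleGraph (Fin b))
    (R : SimpleGraph (Fin n)) (s : ℕ) : Prop :=
  IsLeast {t | ∃ X, Admissible G H R X ∧ spread R X = t} s

/-- `φ = Φ_n(G,H)`: the largest degree spread of a red/blue colouring of `K_n`. -/
def IsPhi {a b : ℕ} (G : SimpleGraph (Fin a)) (H : SimpleGraph (Fin b)) (n φ : ℕ) : Prop :=
  IsGreatest {s | ∃ R : SimpleGraph (Fin n), IsColouringSpread G H R s} φ

/-- Every vertex has degree at least `d`. -/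
def MinDegreeAtLeast {a : ℕ} (G : SimpleGraph (Fin a)) (d : ℕ) : Prop :=
  ∀ v, d ≤ (G.neighborSet v).ncard

/-! ### Proofs -/

theorem arrows_mono {a b : ℕ} {G : SimpleGraph (Fin a)} {H : SimpleGraph (Fin b)} {m n : ℕ}
    (hmn : m ≤ n) (h : Arrows G H m) : Arrows G H n := by
  intro R
  obtain ⟨X, hX⟩ := h (R.comap (Fin.castLEEmb hmn))
  rcases hX with ⟨f, hf, -⟩ | ⟨f, hf, -⟩
  · exact ⟨_, Or.inl ⟨f.trans (Fin.castLEEmb hmn), fun u v huv => hf u v huv, rfl⟩⟩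
  · refine ⟨_, Or.inr ⟨f.trans (Fin.castLEEmb hmn), fun u v huv => ?_, rfl⟩⟩
    have h1 := hf u v huv
    rw [SimpleGraph.compl_adj] at h1 ⊢
    exact ⟨fun h2 => h1.1 ((Fin.castLEEmb hmn).injective h2), h1.2⟩

theorem deg_image {a n : ℕ} {G : SimpleGraph (Fin a)} {S : SimpleGraph (Fin n)} (f : Fin a ↪ Fin n)
    (hf : ∀ u v, G.Adj u v → S.Adj (f u) (f v)) (v : Fin a) :
    (G.neighborSet v).ncard ≤ (S.neighborSet (f v)).ncard := by
  refine Set.ncard_le_ncard_of_injOn f ?_ f.injective.injOn (Set.toFinite _)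
  intro w hw
  exact hf v w hw

theorem deg_add {n : ℕ} (R : SimpleGraph (Fin n)) (v : Fin n) :
    redDegree R v + (Rᶜ.neighborSet v).ncard + 1 = n := by
  classical
  have h1 := R.degree_compl v
  have h2 : redDegree R v = R.degree v := by
    rw [redDegree, ← SimpleGraph.card_neighborSet_eq_degree, Set.ncard_eq_toFinset_card',
      Set.toFinset_card]
  have h3 : (Rᶜ.neighborSet v).ncard = Rᶜ.degree v := by
    rw [← SimpleGraph.card_neighborSet_eq_degree, Set.ncard_eq_toFinset_card',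
      Set.toFinset_card]
  rw [h2, h3, h1, Fintype.card_fin]
  have h4 := R.degree_lt_card_verts v
  rw [Fintype.card_fin] at h4
  omega

theorem spread_le {a b n d : ℕ} {G : SimpleGraph (Fin a)} {H : SimpleGraph (Fin b)}
    (hG : MinDegreeAtLeast G d) (hH : MinDegreeAtLeast H d) (R : SimpleGraph (Fin n))
    {X : Finset (Fin n)} (hX : Admissible G H R X) : spread R X ≤ n - 1 - d := by
  refine Finset.sup_le ?_
  rintro ⟨x, y⟩ hxy
  rw [mem_product] at hxy
  obtain ⟨hx, hy⟩ := hxy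
  simp only at hx hy ⊢
  have hx1 := deg_add R x
  rcases hX with ⟨f, hf, rfl⟩ | ⟨f, hf, rfl⟩
  · rw [mem_map] at hy
    obtain ⟨u, -, rfl⟩ := hy
    have h1 := deg_image f hf u
    have h2 := hG u
    have h3 : (R.neighborSet (f u)).ncard = redDegree R (f u) := rfl
    omega
  · rw [mem_map] at hx
    obtain ⟨u, -, rfl⟩ := hx
    have h1 := deg_image f hf u
    have h2 := hH u
    omega

theorem exists_phi {a b n : ℕ} {G : SimpleGraph (Fin a)} {H : SimpleGraph (Fin b)} {B : ℕ}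
    (h : Arrows G H n) (hB : ∀ (R : SimpleGraph (Fin n)) X, Admissible G H R X → spread R X ≤ B) :
    ∃ φ, IsPhi G H n φ ∧ φ ≤ B := by
  have key : ∀ R : SimpleGraph (Fin n), ∃ s, IsColouringSpread G H R s ∧ s ≤ B := by
    intro R
    obtain ⟨X, hX⟩ := h R
    have hne : {t | ∃ X, Admissible G H R X ∧ spread R X = t}.Nonempty := ⟨_, X, hX, rfl⟩
    have h1 := Nat.sInf_mem hne
    refine ⟨_, ⟨h1, fun t ht => Nat.sInf_le ht⟩, ?_⟩
    have hm : spread R X ∈ {t | ∃ X, Admissible G H R X ∧ spread R X = t} := ⟨X, hX, rfl⟩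
    exact (Nat.sInf_le hm).trans (hB R X hX)
  have hbdd : BddAbove {s | ∃ R : SimpleGraph (Fin n), IsColouringSpread G H R s} := by
    refine ⟨B, ?_⟩
    rintro s ⟨R, ⟨X, hX, hs⟩, -⟩
    rw [← hs]
    exact hB R X hX
  obtain ⟨s, hs, -⟩ := key ⊥
  have hne2 : {s | ∃ R : SimpleGraph (Fin n), IsColouringSpread G H R s}.Nonempty := ⟨s, ⊥, hs⟩
  have h2 := Nat.sSup_mem hne2 hbdd
  refine ⟨_, ⟨h2, fun t ht => le_csSup hbdd ht⟩, ?_⟩
  obtain ⟨R, ⟨X, hX, hs⟩, -⟩ := h2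
  rw [← hs]
  exact hB R X hX

/-! #### The Ramsey number of two triangles -/

theorem admissible_of_triangle {n : ℕ} (R : SimpleGraph (Fin n)) (x y z : Fin n)
    (h : (R.Adj x y ∧ R.Adj y z ∧ R.Adj x z) ∨ (Rᶜ.Adj x y ∧ Rᶜ.Adj y z ∧ Rᶜ.Adj x z)) :
    ∃ X, Admissible (⊤ : SimpleGraph (Fin 3)) (⊤ : SimpleGraph (Fin 3)) R X := by
  have key : ∀ S : SimpleGraph (Fin n), S.Adj x y ∧ S.Adj y z ∧ S.Adj x z →
      ∃ f : Fin 3 ↪ Fin n, ∀ u v, (⊤ : SimpleGraph (Fin 3)).Adj u v → S.Adj (f u) (f v) := by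
    rintro S ⟨h1, h2, h3⟩
    have hadj : ∀ u v : Fin 3, u ≠ v → S.Adj ((![x, y, z] : Fin 3 → Fin n) u)
        ((![x, y, z] : Fin 3 → Fin n) v) := by
      intro u v huv
      fin_cases u <;> fin_cases v <;> first
        | exact absurd rfl huv
        | exact h1
        | exact h2
        | exact h3
        | exact h1.symm
        | exact h2.symm
        | exact h3.symm
    refine ⟨⟨![x, y, z], ?_⟩, fun u v huv => hadj u v huv⟩
    intro u v huv
    by_contra hne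
    exact (hadj u v hne).ne huv
  rcases h with h | h
  · obtain ⟨f, hf⟩ := key R h
    exact ⟨_, Or.inl ⟨f, hf, rfl⟩⟩
  · obtain ⟨f, hf⟩ := key Rᶜ h
    exact ⟨_, Or.inr ⟨f, hf, rfl⟩⟩

theorem triangle_of_admissible {n : ℕ} (R : SimpleGraph (Fin n)) (X : Finset (Fin n))
    (h : Admissible (⊤ : SimpleGraph (Fin 3)) (⊤ : SimpleGraph (Fin 3)) R X) :
    ∃ x y z : Fin n,
      (R.Adj x y ∧ R.Adj y z ∧ R.Adj x z) ∨ (Rᶜ.Adj x y ∧ Rᶜ.Adj y z ∧ Rᶜ.Adj x z) := by
  have h01 : (⊤ : SimpleGraph (Fin 3)).Adj 0 1 := by decide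
  have h12 : (⊤ : SimpleGraph (Fin 3)).Adj 1 2 := by decide
  have h02 : (⊤ : SimpleGraph (Fin 3)).Adj 0 2 := by decide
  rcases h with ⟨f, hf, -⟩ | ⟨f, hf, -⟩
  · exact ⟨f 0, f 1, f 2, Or.inl ⟨hf _ _ h01, hf _ _ h12, hf _ _ h02⟩⟩
  · exact ⟨f 0, f 1, f 2, Or.inr ⟨hf _ _ h01, hf _ _ h12, hf _ _ h02⟩⟩

theorem triangle_of_three {n : ℕ} (R : SimpleGraph (Fin n)) (o i j k : Fin n)
    (hij : i ≠ j) (hjk : j ≠ k) (hik : i ≠ k)
    (h : (R.Adj o i ∧ R.Adj o j ∧ R.Adj o k) ∨ (Rᶜ.Adj o i ∧ Rᶜ.Adj o j ∧ Rᶜ.Adj o k)) :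
    ∃ X, Admissible (⊤ : SimpleGraph (Fin 3)) (⊤ : SimpleGraph (Fin 3)) R X := by
  have key : ∀ S : SimpleGraph (Fin n), S.Adj o i ∧ S.Adj o j ∧ S.Adj o k →
      (S.Adj i j ∨ S.Adj j k ∨ S.Adj i k) →
      ∃ x y z : Fin n, S.Adj x y ∧ S.Adj y z ∧ S.Adj x z := by
    rintro S ⟨h1, h2, h3⟩ (h4 | h4 | h4)
    · exact ⟨o, i, j, h1, h4, h2⟩
    · exact ⟨o, j, k, h2, h4, h3⟩
    · exact ⟨o, i, k, h1, h4, h3⟩
  rcases h with h | h
  · by_cases h4 : R.Adj i j ∨ R.Adj j k ∨ R.Adj i k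
    · obtain ⟨x, y, z, hxyz⟩ := key R h h4
      exact admissible_of_triangle R x y z (Or.inl hxyz)
    · push Not at h4
      refine admissible_of_triangle R i j k (Or.inr ?_)
      simp only [SimpleGraph.compl_adj]
      exact ⟨⟨hij, h4.1⟩, ⟨hjk, h4.2.1⟩, ⟨hik, h4.2.2⟩⟩
  · by_cases h4 : Rᶜ.Adj i j ∨ Rᶜ.Adj j k ∨ Rᶜ.Adj i k
    · obtain ⟨x, y, z, hxyz⟩ := key Rᶜ h h4
      exact admissible_of_triangle R x y z (Or.inr hxyz)
    · simp only [SimpleGraph.compl_adj] at h4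
      push Not at h4
      exact admissible_of_triangle R i j k (Or.inl ⟨h4.1 hij, h4.2.1 hjk, h4.2.2 hik⟩)

theorem arrows_six : Arrows (⊤ : SimpleGraph (Fin 3)) (⊤ : SimpleGraph (Fin 3)) 6 := by
  intro R
  have hc : ∀ i : Fin 6, (0 : Fin 6) ≠ i → ¬ R.Adj 0 i → Rᶜ.Adj 0 i := by
    intro i h0 h
    rw [SimpleGraph.compl_adj]
    exact ⟨h0, h⟩
  have key : ∀ i j k : Fin 6, i ≠ j → j ≠ k → i ≠ k → (0 : Fin 6) ≠ i → (0 : Fin 6) ≠ j →
      (0 : Fin 6) ≠ k →
      ((R.Adj 0 i ∧ R.Adj 0 j ∧ R.Adj 0 k) ∨ (¬ R.Adj 0 i ∧ ¬ R.Adj 0 j ∧ ¬ R.Adj 0 k)) →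
      ∃ X, Admissible (⊤ : SimpleGraph (Fin 3)) (⊤ : SimpleGraph (Fin 3)) R X := by
    intro i j k hij hjk hik hi hj hk h
    refine triangle_of_three R 0 i j k hij hjk hik ?_
    rcases h with h | h
    · exact Or.inl h
    · exact Or.inr ⟨hc i hi h.1, hc j hj h.2.1, hc k hk h.2.2⟩
  by_cases h1 : R.Adj 0 1 <;> by_cases h2 : R.Adj 0 2 <;> by_cases h3 : R.Adj 0 3 <;>
    by_cases h4 : R.Adj 0 4 <;> by_cases h5 : R.Adj 0 5 <;> first
    | exact key 1 2 3 (by decide) (by decide) (by decide) (by decide) (by decide) (by decide)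
        (by tauto)
    | exact key 1 2 4 (by decide) (by decide) (by decide) (by decide) (by decide) (by decide)
        (by tauto)
    | exact key 1 2 5 (by decide) (by decide) (by decide) (by decide) (by decide) (by decide)
        (by tauto)
    | exact key 1 3 4 (by decide) (by decide) (by decide) (by decide) (by decide) (by decide)
        (by tauto)
    | exact key 1 3 5 (by decide) (by decide) (by decide) (by decide) (by decide) (by decide)
        (by tauto)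
    | exact key 1 4 5 (by decide) (by decide) (by decide) (by decide) (by decide) (by decide)
        (by tauto)
    | exact key 2 3 4 (by decide) (by decide) (by decide) (by decide) (by decide) (by decide)
        (by tauto)
    | exact key 2 3 5 (by decide) (by decide) (by decide) (by decide) (by decide) (by decide)
        (by tauto)
    | exact key 2 4 5 (by decide) (by decide) (by decide) (by decide) (by decide) (by decide)
        (by tauto)
    | exact key 3 4 5 (by decide) (by decide) (by decide) (by decide) (by decide) (by decide)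
        (by tauto)

/-- The pentagon. -/
def C5 : SimpleGraph (Fin 5) where
  Adj a b := (a.val + 1) % 5 = b.val ∨ (b.val + 1) % 5 = a.val
  symm := ⟨fun _ _ h => h.symm⟩
  loopless := ⟨by decide⟩

instance : DecidableRel C5.Adj := fun a b => by
  unfold C5
  infer_instance

theorem c5_tri : ∀ x y z : Fin 5,
    ¬ ((C5.Adj x y ∧ C5.Adj y z ∧ C5.Adj x z) ∨
      ((x ≠ y ∧ ¬ C5.Adj x y) ∧ (y ≠ z ∧ ¬ C5.Adj y z) ∧ (x ≠ z ∧ ¬ C5.Adj x z))) := by
  decide

theorem not_arrows_five : ¬ Arrows (⊤ : SimpleGraph (Fin 3)) (⊤ : SimpleGraph (Fin 3)) 5 := by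
  intro h
  obtain ⟨X, hX⟩ := h C5
  obtain ⟨x, y, z, hxyz⟩ := triangle_of_admissible C5 X hX
  simp only [SimpleGraph.compl_adj] at hxyz
  exact c5_tri x y z hxyz

theorem ramsey_triangle :
    IsRamseyNumber (⊤ : SimpleGraph (Fin 3)) (⊤ : SimpleGraph (Fin 3)) 6 := by
  refine ⟨arrows_six, ?_⟩
  intro N hN
  by_contra hcon
  push Not at hcon
  exact not_arrows_five (arrows_mono (by omega) hN)

theorem minDegree_triangle : MinDegreeAtLeast (⊤ : SimpleGraph (Fin 3)) 2 := by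
  intro v
  have h1 : (⊤ : SimpleGraph (Fin 3)).neighborSet v = {v}ᶜ := by
    ext w
    simp [eq_comm]
  rw [h1]
  have h2 := Set.ncard_add_ncard_compl ({v} : Set (Fin 3))
  rw [Set.ncard_singleton, Nat.card_eq_fintype_card, Fintype.card_fin] at h2
  omega

/-- If the minimum degrees of `G` and `H` are at least `d ≥ 1` and `n ≥ r = r(G,H)`, then
`Φ_n(G,H)` exists and is at most `n - 1 - d`; so `Φ_n(G,H) < r - 2` whenever
`r ≤ n < r - 1 + d`.  There are pairs with `d = 2` (two triangles, with `r = 6`), so the identity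
`Φ_n(G,H) = r(G,H) - 2` fails for some `G`, `H` and some `n ≥ r(G,H)`. -/
theorem result :
    (∀ (a b : ℕ) (G : SimpleGraph (Fin a)) (H : SimpleGraph (Fin b)) (d r n : ℕ),
      0 < a → 0 < b → 1 ≤ d → MinDegreeAtLeast G d → MinDegreeAtLeast H d →
      IsRamseyNumber G H r → r ≤ n →
      ∃ φ, IsPhi G H n φ ∧ φ ≤ n - 1 - d ∧ (n < r - 1 + d → φ < r - 2)) ∧
    (∃ (a b : ℕ) (G : SimpleGraph (Fin a)) (H : SimpleGraph (Fin b)) (r n φ : ℕ),
      (∀ v, ∃ w, G.Adj v w) ∧ (∀ v, ∃ w, H.Adj v w) ∧ (∃ v w, G.Adj v w) ∧ (∃ v w, H.Adj v w) ∧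
      IsRamseyNumber G H r ∧ r ≤ n ∧ IsPhi G H n φ ∧ φ ≠ r - 2) := by
  have main : ∀ (a b : ℕ) (G : SimpleGraph (Fin a)) (H : SimpleGraph (Fin b)) (d r n : ℕ),
      0 < a → 0 < b → 1 ≤ d → MinDegreeAtLeast G d → MinDegreeAtLeast H d →
      IsRamseyNumber G H r → r ≤ n →
      ∃ φ, IsPhi G H n φ ∧ φ ≤ n - 1 - d ∧ (n < r - 1 + d → φ < r - 2) := by
    intro a b G H d r n ha hb hd hG hH hr hn
    obtain ⟨φ, h1, h2⟩ := exists_phi (arrows_mono hn hr.1)
      (fun R X hX => spread_le hG hH R hX)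
    refine ⟨φ, h1, h2, fun hn2 => ?_⟩
    -- `r` is at least `d + 1`
    have hrd : d + 1 ≤ r := by
      obtain ⟨X, hX⟩ := hr.1 ⊤
      rcases hX with ⟨f, hf, -⟩ | ⟨f, hf, -⟩
      · have h3 := deg_image f hf ⟨0, ha⟩
        have h4 := hG ⟨0, ha⟩
        have h5 := deg_add (⊤ : SimpleGraph (Fin r)) (f ⟨0, ha⟩)
        have h6 : ((⊤ : SimpleGraph (Fin r)).neighborSet (f ⟨0, ha⟩)).ncard =
          redDegree ⊤ (f ⟨0, ha⟩) := rfl
        omega
      · have h3 := deg_image f hf ⟨0, hb⟩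
        have h4 := hH ⟨0, hb⟩
        have h5 := deg_add (⊤ : SimpleGraph (Fin r)) (f ⟨0, hb⟩)
        omega
    omega
  refine ⟨main, ?_⟩
  obtain ⟨φ, h1, -, h3⟩ := main 3 3 ⊤ ⊤ 2 6 6 (by norm_num) (by norm_num) (by norm_num)
    minDegree_triangle minDegree_triangle ramsey_triangle le_rfl
  have hiso : ∀ v : Fin 3, ∃ w, (⊤ : SimpleGraph (Fin 3)).Adj v w := by decide
  refine ⟨3, 3, ⊤, ⊤, 6, 6, φ, hiso, hiso, ⟨0, 1, by decide⟩, ⟨0, 1, by decide⟩,
    ramsey_triangle, le_rfl, h1, ?_⟩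
  have := h3 (by norm_num)
  omega

end Pool.Agent.Results.MP_f2857b_co.SmallOrders
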